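import Pool.Agent.R70.CY.Fin

/-!
# Double covers of `ℙ¹ × ℙ¹`: the closure of the rational points at the local points

`X` is the surface `w² = f(x₀, x₁)`, where `f` has degree `3` or `4` in each of the two variables,
that is, a double cover of `ℙ¹ × ℙ¹` branched along a curve of bidegree `(4, 4)`; if the branch curve
is smooth, it is a K3 surface. Let `K` be a field of characteristic zero, for example a number field,
and let `f` have coefficients in `K`. We consider finite nonempty sets `S` of `p`-adic places of
degree one (embeddings of `K` into `ℚ_p`) over different primes `p`, with or without a real place;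
for `K = ℚ` these are all the finite sets of places which contain a finite place.

If the Brauer-Manin obstruction is the only one to weak approximation on a K3 surface `X`, then the
closure of `X(K)` in the product of the `X(K_v)`, `v` in `S`, is open, because `Br X / Br K` is
finite. We prove this for the part of the closure in the product of sets `U_v`:

**Theorem.** For all primes `p` and all `f` over `ℚ_p` there are open sets `U₀`, `U₁` of points over
`ℚ_p`, and for all `f` over `ℝ` there is an open set `V` of real points, such that

(1) the points of `w² = f(x₀, x₁)` in each of these sets are dense in the set of all the points of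
`w² = f(x₀, x₁)` with `w ≠ 0`, if `f` is nondegenerate (see the definition);

(2) for all fields `K`, all `f` over `K` and all such sets of places of `K` the closure of `X(K)` in
the product of the `X(K_v)` is a neighbourhood of each of its points `(T_v)` such that `T_v` is in
`U_j` for the `p`-adic places, with the same `j`, and in `V` for the real place.

The sets `U_j`, `V` depend only on the surface over `K_v`, not on `K`, the other places or the
`K`-points. (`V` is Zariski open. The set `U_j` consists of the points in a Zariski open set for
which the difference of the two points with the same coordinates `(x₀, x₁)` is of infinite order on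
the curve of genus one in the direction of `x_j`.)
-/

set_option autoImplicit false

namespace Pool.Agent.Results.MP_ed3816_nt.ClosureAtLocalPoints

open MvPolynomial Pool.Agent.R70.CY

/-- **The closure of the rational points is open at the points of a dense open set of local
points, which does not depend on the number field.** -/
theorem result :
    ∃ (U : ∀ (p : ℕ) [Fact p.Prime], MvPolynomial (Fin 2) ℚ_[p] → Fin 2 →
        Set ((Fin 2 → ℚ_[p]) × ℚ_[p]))
      (V : MvPolynomial (Fin 2) ℝ → Set ((Fin 2 → ℝ) × ℝ)),
    -- (1) the sets are open and dense in the set of points with `w ≠ 0`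
    (∀ (p : ℕ) [Fact p.Prime] (f : MvPolynomial (Fin 2) ℚ_[p]) (j : Fin 2), NonDegenerate f →
      IsOpen (U p f j) ∧
        ∀ P, OnCover f P → P.2 ≠ 0 → P ∈ closure {Q | OnCover f Q ∧ Q ∈ U p f j}) ∧
    (∀ f : MvPolynomial (Fin 2) ℝ, NonDegenerate f →
      IsOpen (V f) ∧ ∀ P, OnCover f P → P.2 ≠ 0 → P ∈ closure {Q | OnCover f Q ∧ Q ∈ V f}) ∧
    -- (2) the closure of the rational points
    ∀ (K : Type) [Field K] [CharZero K] (f : MvPolynomial (Fin 2) K), (∀ j, f.degreeOf j ≤ 4) →
      ∀ (ι : Type) [Finite ι] [Nonempty ι] (p : ι → ℕ) [∀ i, Fact (p i).Prime],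
        Function.Injective p → ∀ σ : ∀ i, K →+* ℚ_[p i],
      (∀ T ∈ Closure f σ, (∃ j, ∀ i, T i ∈ U (p i) (map (σ i) f) j) →
        ∃ N ∈ nhds T, ∀ S ∈ N, (∀ i, OnCover (map (σ i) f) (S i)) → S ∈ Closure f σ) ∧
      ∀ (τ : K →+* ℝ), ∀ T ∈ ClosureReal f σ τ, T.1 ∈ V (map τ f) →
        (∃ j, ∀ i, T.2 i ∈ U (p i) (map (σ i) f) j) →
        ∃ N ∈ nhds T, ∀ S ∈ N, OnCover (map τ f) S.1 → (∀ i, OnCover (map (σ i) f) (S.2 i)) →
          S ∈ ClosureReal f σ τ := by
  refine ⟨fun p _ f j => Gd f j, fun f => {Q | eval Q.1 (Pool.Agent.Y720.MZ.NK f) ≠ 0},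
    fun p _ f j hf => ⟨gd_open f j, fun P hP hw => closure_p le_rfl hf j P hP hw⟩,
    fun f hf => ⟨open_r_set f, fun P hP hw => closure_r le_rfl hf P hP hw⟩, ?_⟩
  intro K _ _ f hd ι _ _ p _ hinj σ
  exact ⟨fun T hcl ⟨j, hT⟩ => open_p hinj σ hd j hcl hT,
    fun τ T hcl h0 ⟨j, hT⟩ => open_r hinj σ τ hd j hcl h0 hT⟩

end Pool.Agent.Results.MP_ed3816_nt.ClosureAtLocalPoints
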